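import Mathlib
import Pool.Agent.H463R3.NilElem

/-!
# MP_40d5d3: a quasiisometry of a nilpotent Lie group that does not coarsely permute cosets

The group `N` is the real Lie group on `R^6` whose Lie algebra has a basis `T, X, X', Z, P, Y`
with `[T, X] = X'`, `[T, X'] = Z`, `[T, P] = Y` and all the other brackets of basis vectors zero.
-/

open scoped Manifold ContDiff

noncomputable section

namespace Pool.Agent.Results.MP_40d5d3_al.CentralShear

open Pool.Agent.H463R3.NilGroup Pool.Agent.H463R3.NilGroup.N

lemma not_coarselyPermutes (d' : N → N → ℝ) (hd : ∀ x y, dR x y ≤ d' x y) :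
    ¬ CoarselyPermutes d' (shear 1) ((⊤ : Subgroup N).lowerCentralSeries 2) := by
  rw [lcs2]
  rintro ⟨D, hD⟩
  obtain ⟨h, h1, -⟩ := hD 1
  set M : ℝ := 3 * (D + 1) + phiN h with hM
  set T : ℝ := Real.exp M with hT
  have hTpos : 0 < T := Real.exp_pos M
  have hs : 0 ≤ Real.exp T - 1 := by
    have := Real.add_one_le_exp T
    linarith
  set s : ℝ := Real.sqrt (Real.exp T - 1) with hsdef
  have hs2 : s ^ 2 = Real.exp T - 1 := Real.sq_sqrt hs
  have hx : shear 1 (of ![0, 0, 0, s, 0, 0] : N) ∈ {y | ∃ k ∈ N3, shear 1 (1 * k) = y} :=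
    ⟨of ![0, 0, 0, s, 0, 0], ⟨rfl, rfl, rfl, rfl, rfl⟩, by rw [one_mul]⟩
  obtain ⟨y, hy, hdy⟩ := h1 _ hx 1 one_pos
  have hc : cfun (of ![0, 0, 0, s, 0, 0] : N).co = T := by
    unfold cfun
    rw [co_of, m0, m3, hs2]
    have : (1 : ℝ) + 0 ^ 4 + (Real.exp T - 1) = Real.exp T := by ring
    rw [this, Real.log_exp]
  have hp1 : phiN (shear 1 (of ![0, 0, 0, s, 0, 0])) = Real.log (1 + T ^ 2) := by
    unfold phiN phi
    rw [shear_co0, shear_co5, hc, co_of, m0, m5]
    congr 1
    ring
  have hp2 : phiN y = phiN h := by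
    obtain ⟨n, ⟨n0, n1, n2, n4, n5⟩, rfl⟩ := hy
    unfold phiN phi
    rw [co0_mul, co5_mul, n0, n4, n5]
    simp
  have hb := abs_phi_le (shear 1 (of ![0, 0, 0, s, 0, 0])) y
  rw [hp1, hp2] at hb
  have hb2 := (abs_le.1 hb).2
  have hb3 := hd (shear 1 (of ![0, 0, 0, s, 0, 0])) y
  have hlog : M < Real.log (1 + T ^ 2) := by
    have h5 : T < 1 + T ^ 2 := by nlinarith [sq_nonneg (T - 1)]
    have h6 := Real.log_lt_log hTpos h5
    rwa [hT, Real.log_exp, ← hT] at h6
  linarith

lemma isQuasiisometry_d : IsQuasiisometry N.d (shear 1) := by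
  refine ⟨10, 0, by norm_num, le_rfl, fun x y => ⟨?_, ?_⟩, fun y => ⟨shear (-1) y, ?_⟩⟩
  · have h := dR_shear_le (-1) (by norm_num) (shear 1 x) (shear 1 y)
    rw [shear_shear, shear_shear] at h
    rw [d_eq, d_eq]
    linarith
  · have h := dR_shear_le 1 (by norm_num) x y
    rw [d_eq, d_eq]
    linarith
  · have h := shear_shear (-1) y
    rw [neg_neg] at h
    rw [h, d_eq, dR_self]

lemma isQuasiisometry_dcc : IsQuasiisometry N.dcc (shear 1) := by
  refine ⟨15, 2, by norm_num, by norm_num, fun x y => ⟨?_, ?_⟩, fun y => ⟨shear (-1) y, ?_⟩⟩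
  · have h := dC_shear_le (-1) (by norm_num) (shear 1 x) (shear 1 y)
    rw [shear_shear, shear_shear] at h
    rw [dcc_eq, dcc_eq]
    linarith
  · have h := dC_shear_le 1 (by norm_num) x y
    rw [dcc_eq, dcc_eq]
    linarith
  · have h := shear_shear (-1) y
    rw [neg_neg] at h
    rw [h, dcc_eq, dC_self]
    norm_num

/-- `N` is a simply connected nilpotent Lie group of class three, it is a Carnot group, it is not
a direct product of two nontrivial groups and it has no Heisenberg direct factor. For a
left-invariant Riemannian distance and for a Carnot distance of `N`, one and the same map `f` is a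
quasiisometry that does not coarsely permute the left cosets of `N_3`, the third and last
nontrivial term of the lower central series (`lowerCentralSeries 2` in the numbering of
Mathlib, which starts at zero). -/
theorem result :
    -- `N` is a simply connected Lie group, nilpotent of class three
    LieGroup 𝓘(ℝ, E) ∞ N ∧ SimplyConnectedSpace N ∧ Group.IsNilpotent N ∧
    Group.nilpotencyClass N = 3 ∧
    -- the Lie algebra of `N` is stratified of step three, with the strata `stratL 1, 2, 3`
    IsStratification (L := GroupLieAlgebra 𝓘(ℝ, E) N) 3 stratL ∧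
    -- no Heisenberg direct factor, and no direct product decomposition at all
    (∀ (n : ℕ) (K : Type) [Group K], IsEmpty (N ≃* Heis n × K)) ∧
    (∀ (H K : Type) [Group H] [Group K], (N ≃* H × K) → Subsingleton H ∨ Subsingleton K) ∧
    -- `A (g.co 0)` is the derivative of the left translation by `g`
    (∀ (g : N) (y v : E), fderiv ℝ (fun z : E => (g * of z).co) y v = A (g.co 0) v) ∧
    -- any two points are joined by a horizontal path, and both distances are left-invariant
    (∀ x y : N, (hlengths x y).Nonempty) ∧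
    (∀ g x y : N, N.d (g * x) (g * y) = N.d x y ∧ N.dcc (g * x) (g * y) = N.dcc x y) ∧
    ∃ f : N → N,
      (IsQuasiisometry N.d f ∧
        ¬ CoarselyPermutes N.d f ((⊤ : Subgroup N).lowerCentralSeries 2)) ∧
      (IsQuasiisometry N.dcc f ∧
        ¬ CoarselyPermutes N.dcc f ((⊤ : Subgroup N).lowerCentralSeries 2)) := by
  have hsc : SimplyConnectedSpace N := inferInstanceAs (SimplyConnectedSpace E)
  exact ⟨inferInstance, hsc, inferInstance, nilpotencyClass_eq, isStratification,
    fun n K _ => no_heisenberg n K, fun H K _ _ e => indecomposable H K e, fderiv_mul_left,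
    hlengths_nonempty, fun g x y => ⟨d_mul_left g x y, dcc_mul_left g x y⟩,
    shear 1, ⟨isQuasiisometry_d, not_coarselyPermutes _ fun x y => (d_eq x y).ge⟩,
    ⟨isQuasiisometry_dcc, not_coarselyPermutes _ fun x y => by
      rw [dcc_eq]
      exact dR_le_dC x y⟩⟩

end Pool.Agent.Results.MP_40d5d3_al.CentralShear
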